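import Mathlib
import Pool.Agent.Lib.RM48.Osc.Main

/-!
# A model of `ZFC` in which `𝔯_osc < cov(𝒩)`

The definitions are in `Pool.Agent.Lib.RM48.Osc.Defs` (densities, null sets, `𝔯_osc < cov(𝒩)` in a
model), `Pool.Agent.Lib.RM48.Defs` (`ZFC`, reals of a model), `Pool.Agent.Lib.SymZF.ZF` (`ZF`) and
`Pool.Agent.Lib.SymZF.IntDefs` (ordered pairs, `ω`).
-/

set_option autoImplicit false

namespace Pool.Agent.Results.MP_177d78_lc.SmallROsc

open Pool.Agent.Lib.SymZF Pool.Agent.Lib.RM48

/-- There is a countable well-founded model `(M, E)` of `ZFC` (up to isomorphism a countable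
transitive model; in particular its natural numbers are standard) in which `𝔯_osc < cov(𝒩)`. -/
theorem result : ∃ (M : Type) (E : M → M → Prop), Countable M ∧ WellFounded E ∧ IsZFC E ∧
    ROscLtCovNull E := by
  obtain ⟨M, E, h1, h2, _, h4, h5⟩ := exists_osc_model
  exact ⟨M, E, h1, h2, h4, h5⟩

end Pool.Agent.Results.MP_177d78_lc.SmallROsc
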